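import Pool.Agent.W192.HK.Parts

/-!
Project HK (subtask HK-DIVR): divisor bound for ideals, adapted from Pool.Agent.W55.CM.Divr.
-/

set_option autoImplicit false

namespace Pool.Agent.W513.HK

open Pool.Agent.W192.HK

noncomputable section

/-- the divisors of `I` -/
def D {R : Subring ℂ} (I : Ideal R) : Set (Ideal R) := {J : Ideal R | J ∣ I}

section
variable {R : Subring ℂ}

theorem D_fin [IsDedekindDomain R] (I : Ideal R) (hI : I ≠ ⊥) : (D I).Finite := by
  have : Fintype (Ideal R)ˣ := Fintype.ofFinite _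
  have h : Fintype {x : Ideal R // x ∣ I} := UniqueFactorizationMonoid.fintypeSubtypeDvd I (by rwa [Ideal.zero_eq_bot])
  have h2 : Finite (D I) := @Finite.of_fintype _ h
  exact Set.toFinite _

/-- finitely many ideals of bounded norm -/
theorem finite_norm [IsDedekindDomain R] (hfin : ∀ I : Ideal R, I ≠ ⊥ → Finite (R ⧸ I)) (B : ℝ) :
    {J : Ideal R | J ≠ ⊥ ∧ nm J ≤ B}.Finite := by
  have hN : ((Nat.factorial ⌊B⌋₊ : ℕ) : R) ≠ 0 := by
    intro h
    have h2 : ((Nat.factorial ⌊B⌋₊ : ℕ) : ℂ) = 0 := by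
      have := congrArg (fun t : R => (t : ℂ)) h
      simpa using this
    exact Nat.factorial_ne_zero _ (by exact_mod_cast h2)
  refine (D_fin (Ideal.span {((Nat.factorial ⌊B⌋₊ : ℕ) : R)}) ?_).subset ?_
  · rw [Ne, Ideal.span_singleton_eq_bot]
    exact hN
  · rintro J ⟨hJ, hB⟩
    show J ∣ _
    rw [Ideal.dvd_iff_le, Ideal.span_singleton_le_iff_mem]
    have := hfin J hJ
    have h1 : ((Nat.card (R ⧸ J) : ℕ) : R) ∈ J := by
      rw [← Ideal.Quotient.eq_zero_iff_mem, map_natCast]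
      have h2 : Nat.card (R ⧸ J) • (1 : R ⧸ J) = 0 := card_nsmul_eq_zero'
      rwa [nsmul_eq_mul, mul_one] at h2
    have h2 : Nat.card (R ⧸ J) ∣ Nat.factorial ⌊B⌋₊ := by
      apply Nat.dvd_factorial Nat.card_pos
      exact Nat.le_floor hB
    obtain ⟨m, hm⟩ := h2
    rw [hm, Nat.cast_mul]
    exact J.mul_mem_right _ h1

theorem D_mul [IsDedekindDomain R] (x y : Ideal R) (hx : x ≠ ⊥) (hy : y ≠ ⊥) :
    (D (x * y)).ncard ≤ (D x).ncard * (D y).ncard := by
  have : UniqueFactorizationMonoid (Ideal R) := inferInstance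
  have : DecompositionMonoid (Ideal R) := inferInstance
  have h1 : D (x * y) ⊆ (fun p : Ideal R × Ideal R => p.1 * p.2) '' ((D x) ×ˢ (D y)) := by
    intro β hβ
    obtain ⟨b1, b2, h1, h2, h3⟩ := exists_dvd_and_dvd_of_dvd_mul hβ
    exact ⟨(b1, b2), ⟨h1, h2⟩, h3.symm⟩
  have hf : ((D x) ×ˢ (D y)).Finite := (D_fin x hx).prod (D_fin y hy)
  calc (D (x * y)).ncard ≤ _ := Set.ncard_le_ncard h1 (hf.image _)
    _ ≤ ((D x) ×ˢ (D y)).ncard := Set.ncard_image_le hf
    _ = _ := Set.ncard_prod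

theorem D_unit [IsDedekindDomain R] (u : Ideal R) (hu : IsUnit u) : (D u).ncard ≤ 1 := by
  have h1 : D u ⊆ {⊤} := by
    intro β hβ
    exact Ideal.isUnit_iff.mp (isUnit_of_dvd_unit hβ hu)
  calc (D u).ncard ≤ ({⊤} : Set (Ideal R)).ncard := Set.ncard_le_ncard h1
    _ = 1 := Set.ncard_singleton _

theorem D_pow [IsDedekindDomain R] (p : Ideal R) (hp : Prime p) (i : ℕ) :
    (D (p ^ i)).ncard ≤ i + 1 := by
  have h1 : D (p ^ i) ⊆ (fun j : ℕ => p ^ j) '' (Set.Iic i) := by
    intro β hβ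
    obtain ⟨j, hj, hj'⟩ := (dvd_prime_pow hp i).1 hβ
    exact ⟨j, hj, (associated_iff_eq.mp hj').symm⟩
  calc (D (p ^ i)).ncard ≤ _ := Set.ncard_le_ncard h1 ((Set.finite_Iic i).image _)
    _ ≤ (Set.Iic i).ncard := Set.ncard_image_le (Set.finite_Iic i)
    _ = i + 1 := by
      rw [← Finset.coe_Iic, Set.ncard_coe_finset, Nat.card_Iic]

end

theorem i_le (η : ℝ) (hη : 0 < η) (i : ℕ) :
    ((i : ℝ) + 1) ≤ (1 + 2 / η) * ((2 : ℝ) ^ η) ^ i := by
  have h1 : ((2 : ℝ) ^ η) ^ i = Real.exp (Real.log 2 * (η * i)) := by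
    rw [← Real.rpow_natCast, ← Real.rpow_mul (by norm_num), Real.rpow_def_of_pos (by norm_num)]
  have h2 : Real.log 2 * (η * i) + 1 ≤ Real.exp (Real.log 2 * (η * i)) := Real.add_one_le_exp _
  have h3 : (1 : ℝ) / 2 ≤ Real.log 2 := by have := Real.log_two_gt_d9; linarith
  have hi : (0 : ℝ) ≤ i := Nat.cast_nonneg i
  have h4 : (1 : ℝ) / 2 * (η * i) ≤ Real.log 2 * (η * i) :=
    mul_le_mul_of_nonneg_right h3 (by positivity)
  rw [h1]
  have h5 : 1 + η * i / 2 ≤ Real.exp (Real.log 2 * (η * i)) := by linarith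
  have h6 : (0 : ℝ) < 1 + 2 / η := by positivity
  calc (i : ℝ) + 1 ≤ (1 + 2 / η) * (1 + η * i / 2) := by
        have : (1 + 2 / η) * (1 + η * i / 2) = 1 + 2 / η + η * i / 2 + i := by
          field_simp; ring
        rw [this]
        have : (0 : ℝ) ≤ 2 / η + η * i / 2 := by positivity
        linarith
    _ ≤ _ := mul_le_mul_of_nonneg_left h5 h6.le

theorem h_divr (hBas : H_BASIC) : H_DIVR := by
  intro R ω hR η hη
  obtain ⟨hfin, hbot, hone, hmul, -, -, htop, -, -⟩ := hBas R ω hR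
  have := hR.ded
  have : UniqueFactorizationMonoid (Ideal R) := inferInstance
  have : DecompositionMonoid (Ideal R) := inferInstance
  obtain ⟨B, hBdef⟩ : ∃ B : ℝ, B = (2 : ℝ) ^ (1 / η) := ⟨_, rfl⟩
  have hT := finite_norm hfin B
  obtain ⟨c, hc⟩ : ∃ c : ℝ, c = 1 + 2 / η := ⟨_, rfl⟩
  have hc1 : 1 ≤ c := by
    rw [hc]
    have : 0 < 2 / η := by positivity
    linarith
  have hnm0 : ∀ I : Ideal R, 0 ≤ nm I := fun I => Nat.cast_nonneg _
  -- the small primes dividing `a`
  let T : Ideal R → Set (Ideal R) := fun a => {t : Ideal R | (t ≠ ⊥ ∧ nm t ≤ B) ∧ Prime t ∧ t ∣ a}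
  have hTf : ∀ a, (T a).Finite := fun a => hT.subset (fun t ht => ht.1)
  have hpow : ∀ (p : Ideal R) (i : ℕ), nm (p ^ i) = nm p ^ i := by
    intro p i
    induction i with
    | zero =>
      rw [pow_zero, pow_zero, Ideal.one_eq_top]
      exact (htop ⊤).mpr rfl
    | succ i ih => rw [pow_succ, hmul, ih, pow_succ]
  have key : ∀ γ : Ideal R, γ ≠ 0 → ((D γ).ncard : ℝ) ≤ c ^ (T γ).ncard * (nm γ) ^ η := by
    intro γ
    refine UniqueFactorizationMonoid.induction_on_coprime γ ?_ ?_ ?_ ?_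
    · intro h; exact absurd rfl h
    · intro u hu _
      have h1 : nm u = 1 := (htop u).2 (Ideal.isUnit_iff.mp hu)
      rw [h1, Real.one_rpow, mul_one]
      have h2 : ((D u).ncard : ℝ) ≤ 1 := by exact_mod_cast D_unit u hu
      exact h2.trans (one_le_pow₀ hc1)
    · intro p i hp _
      have h1 : ((D (p ^ i)).ncard : ℝ) ≤ i + 1 := by exact_mod_cast D_pow p hp i
      refine h1.trans ?_
      have hpb : p ≠ ⊥ := hp.ne_zero
      have hp1 : 1 ≤ nm p := hone p hpb
      have hp0 : 0 < nm p := by linarith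
      have hp2 : 2 ≤ nm p := by
        have h2 : nm p ≠ 1 := fun h => hp.not_isUnit (Ideal.isUnit_iff.mpr ((htop p).mp h))
        unfold nm at hp1 h2 ⊢
        have h3 : 1 ≤ Nat.card (R ⧸ p) := by exact_mod_cast hp1
        have h4 : Nat.card (R ⧸ p) ≠ 1 := by
          intro h
          exact h2 (by rw [h]; norm_num)
        have h5 : 2 ≤ Nat.card (R ⧸ p) := by omega
        exact_mod_cast h5
      have h2 : (nm (p ^ i)) ^ η = ((nm p) ^ η) ^ i := by
        rw [hpow, ← Real.rpow_natCast, ← Real.rpow_mul hp0.le,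
          ← Real.rpow_natCast, ← Real.rpow_mul hp0.le, mul_comm]
      rw [h2]
      by_cases hi : i = 0
      · subst hi
        simp only [Nat.cast_zero, zero_add, pow_zero, mul_one]
        exact one_le_pow₀ hc1
      by_cases hsm : nm p ≤ B
      · have h3 : 1 ≤ (T (p ^ i)).ncard := by
          rw [Nat.one_le_iff_ne_zero]
          intro h
          rw [Set.ncard_eq_zero (hTf _)] at h
          have : p ∈ T (p ^ i) := ⟨⟨hpb, hsm⟩, hp, dvd_pow_self p hi⟩
          rw [h] at this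
          exact this
        have h4 : c ≤ c ^ (T (p ^ i)).ncard := by
          calc c = c ^ 1 := (pow_one c).symm
            _ ≤ _ := pow_le_pow_right₀ hc1 h3
        have h5 : ((2 : ℝ) ^ η) ^ i ≤ ((nm p) ^ η) ^ i := by
          apply pow_le_pow_left₀ (by positivity)
          exact Real.rpow_le_rpow (by norm_num) hp2 hη.le
        have h6 := i_le η hη i
        rw [← hc] at h6
        calc (i : ℝ) + 1 ≤ c * ((2 : ℝ) ^ η) ^ i := h6
          _ ≤ c ^ (T (p ^ i)).ncard * ((nm p) ^ η) ^ i := by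
            apply mul_le_mul h4 h5 (by positivity) (by positivity)
      · rw [not_le] at hsm
        have h3 : (2 : ℝ) ≤ (nm p) ^ η := by
          have h4 : B ^ η = 2 := by
            rw [hBdef, ← Real.rpow_mul (by norm_num), one_div, inv_mul_cancel₀ hη.ne',
              Real.rpow_one]
          rw [← h4]
          apply Real.rpow_le_rpow _ hsm.le hη.le
          rw [hBdef]
          positivity
        have h4 : (i : ℝ) + 1 ≤ 2 ^ i := by
          have : i + 1 ≤ 2 ^ i := Nat.lt_two_pow_self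
          exact_mod_cast this
        have h5 : (2 : ℝ) ^ i ≤ ((nm p) ^ η) ^ i :=
          pow_le_pow_left₀ (by norm_num) h3 i
        have h6 : (1 : ℝ) ≤ c ^ (T (p ^ i)).ncard := one_le_pow₀ hc1
        calc (i : ℝ) + 1 ≤ ((nm p) ^ η) ^ i := h4.trans h5
          _ ≤ _ := le_mul_of_one_le_left (by positivity) h6
    · intro x y hxy hx hy hne
      have hx0 : x ≠ 0 := left_ne_zero_of_mul hne
      have hy0 : y ≠ 0 := right_ne_zero_of_mul hne
      have h1 := hx hx0
      have h2 := hy hy0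
      have h3 : ((D (x * y)).ncard : ℝ) ≤ (D x).ncard * (D y).ncard := by
        exact_mod_cast D_mul x y hx0 hy0
      have h4 : (T x).ncard + (T y).ncard ≤ (T (x * y)).ncard := by
        rw [← Set.ncard_union_eq ?_ (hTf x) (hTf y)]
        · apply Set.ncard_le_ncard _ (hTf _)
          rintro t (ht | ht)
          · exact ⟨ht.1, ht.2.1, ht.2.2.mul_right y⟩
          · exact ⟨ht.1, ht.2.1, ht.2.2.mul_left x⟩
        · rw [Set.disjoint_left]
          intro t ht1 ht2
          exact ht1.2.1.not_isUnit (hxy ht1.2.2 ht2.2.2)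
      have h5 : c ^ (T x).ncard * c ^ (T y).ncard ≤ c ^ (T (x * y)).ncard := by
        rw [← pow_add]
        exact pow_le_pow_right₀ hc1 h4
      have hnx : 0 ≤ (nm x) ^ η := Real.rpow_nonneg (hnm0 x) _
      have hny : 0 ≤ (nm y) ^ η := Real.rpow_nonneg (hnm0 y) _
      rw [hmul, Real.mul_rpow (hnm0 x) (hnm0 y)]
      have hc0 : 0 ≤ c := by linarith
      calc ((D (x * y)).ncard : ℝ) ≤ (D x).ncard * (D y).ncard := h3
        _ ≤ (c ^ (T x).ncard * (nm x) ^ η) *
            (c ^ (T y).ncard * (nm y) ^ η) :=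
          mul_le_mul h1 h2 (Nat.cast_nonneg _) (mul_nonneg (pow_nonneg hc0 _) hnx)
        _ = (c ^ (T x).ncard * c ^ (T y).ncard) *
            ((nm x) ^ η * (nm y) ^ η) := by ring
        _ ≤ _ := mul_le_mul_of_nonneg_right h5 (mul_nonneg hnx hny)
  have hc0 : 0 < c := by linarith
  refine ⟨c ^ (hT.toFinset.card), by positivity, ?_⟩
  intro γ hγ
  refine ⟨D_fin γ hγ, ?_⟩
  have h2 := key γ hγ
  have h3 : (T γ).ncard ≤ hT.toFinset.card := by
    rw [← Set.ncard_coe_finset, Set.Finite.coe_toFinset]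
    exact Set.ncard_le_ncard (fun t ht => ht.1) hT
  have h4 : c ^ (T γ).ncard ≤ c ^ hT.toFinset.card := pow_le_pow_right₀ hc1 h3
  have hng : 0 ≤ (nm γ) ^ η := Real.rpow_nonneg (hnm0 γ) _
  exact h2.trans (mul_le_mul_of_nonneg_right h4 hng)

end

end Pool.Agent.W513.HK
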