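import Pool.Agent.W192.HK.Parts0

/-!
Project HK0 (subtask HK0-V): the weight function `Γ(1/2, x) / Γ(1/2)`.
-/

set_option autoImplicit false

open Set MeasureTheory

namespace Pool.Agent.W513.HK

open Pool.Agent.W192.HK

theorem n_v : N_V := by
  have hsp : 0 < Real.sqrt Real.pi := Real.sqrt_pos.mpr Real.pi_pos
  have e : (1 / 2 : ℝ) - 1 = -1 / 2 := by norm_num
  have hgi : IntegrableOn (fun t : ℝ => Real.exp (-t) * t ^ (-1 / 2 : ℝ)) (Ioi 0) := by
    have h := Real.GammaIntegral_convergent (show (0 : ℝ) < 1 / 2 by norm_num)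
    rw [e] at h
    exact h
  have hgI : ∫ t in Ioi (0 : ℝ), Real.exp (-t) * t ^ (-1 / 2 : ℝ) = Real.sqrt Real.pi := by
    have h := Real.Gamma_eq_integral (show (0 : ℝ) < 1 / 2 by norm_num)
    rw [Real.Gamma_one_half_eq, e] at h
    exact h.symm
  have hki : IntegrableOn (fun t : ℝ => t ^ (-1 / 2 : ℝ) * Real.exp (-(1 / 2) * t)) (Ioi 0) := by
    have h := integrableOn_rpow_mul_exp_neg_mul_rpow (p := 1) (s := -1 / 2) (b := 1 / 2)
      (by norm_num) (by norm_num) (by norm_num)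
    simp only [Real.rpow_one] at h
    exact h
  obtain ⟨K, hK⟩ : ∃ K : ℝ, K = ∫ t in Ioi (0 : ℝ), t ^ (-1 / 2 : ℝ) * Real.exp (-(1 / 2) * t) :=
    ⟨_, rfl⟩
  have hK0 : 0 ≤ K := by
    rw [hK]
    exact setIntegral_nonneg measurableSet_Ioi (fun t ht => by
      have : (0 : ℝ) < t := ht
      positivity)
  have hsub : ∀ x : ℝ, 0 ≤ x → Ioi x ⊆ Ioi (0 : ℝ) := fun x hx => Ioi_subset_Ioi hx
  refine ⟨K / Real.sqrt Real.pi + 2 / Real.sqrt Real.pi, ⟨by positivity, ?_, ?_⟩⟩
  · intro x hx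
    have h0 : 0 ≤ ∫ t in Ioi x, Real.exp (-t) * t ^ (-1 / 2 : ℝ) :=
      setIntegral_nonneg measurableSet_Ioi (fun t ht => by
        have h1 : x < t := ht
        have : (0 : ℝ) < t := by linarith
        positivity)
    have h1 : ∫ t in Ioi x, Real.exp (-t) * t ^ (-1 / 2 : ℝ) ≤
        ∫ t in Ioi x, Real.exp (-(x / 2)) * (t ^ (-1 / 2 : ℝ) * Real.exp (-(1 / 2) * t)) := by
      refine setIntegral_mono_on (hgi.mono_set (hsub x hx)) ((hki.mono_set (hsub x hx)).const_mul _)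
        measurableSet_Ioi ?_
      intro t ht
      have h2 : x < t := ht
      have h3 : (0 : ℝ) < t := by linarith
      have h4 : Real.exp (-t) ≤ Real.exp (-(x / 2)) * Real.exp (-(1 / 2) * t) := by
        rw [← Real.exp_add]
        apply Real.exp_le_exp.mpr
        linarith
      have h5 : 0 ≤ t ^ (-1 / 2 : ℝ) := by positivity
      calc Real.exp (-t) * t ^ (-1 / 2 : ℝ)
          ≤ (Real.exp (-(x / 2)) * Real.exp (-(1 / 2) * t)) * t ^ (-1 / 2 : ℝ) :=
            mul_le_mul_of_nonneg_right h4 h5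
        _ = _ := by ring
    have h2 : ∫ t in Ioi x, Real.exp (-(x / 2)) * (t ^ (-1 / 2 : ℝ) * Real.exp (-(1 / 2) * t)) ≤
        Real.exp (-(x / 2)) * K := by
      rw [integral_const_mul, hK]
      refine mul_le_mul_of_nonneg_left ?_ (Real.exp_pos _).le
      refine setIntegral_mono_set hki ?_ (Filter.Eventually.of_forall (hsub x hx))
      refine (ae_restrict_iff' measurableSet_Ioi).mpr (Filter.Eventually.of_forall ?_)
      intro t ht
      have : (0 : ℝ) < t := ht
      show (0 : ℝ) ≤ t ^ (-1 / 2 : ℝ) * Real.exp (-(1 / 2) * t)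
      positivity
    unfold V0
    rw [abs_of_nonneg (by positivity)]
    have h3 := h1.trans h2
    calc 1 / Real.sqrt Real.pi * ∫ t in Ioi x, Real.exp (-t) * t ^ (-1 / 2 : ℝ)
        ≤ 1 / Real.sqrt Real.pi * (Real.exp (-(x / 2)) * K) :=
          mul_le_mul_of_nonneg_left h3 (by positivity)
      _ = K / Real.sqrt Real.pi * Real.exp (-(x / 2)) := by ring
      _ ≤ (K / Real.sqrt Real.pi + 2 / Real.sqrt Real.pi) * Real.exp (-(x / 2)) := by
          apply mul_le_mul_of_nonneg_right _ (Real.exp_pos _).le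
          have : 0 ≤ 2 / Real.sqrt Real.pi := by positivity
          linarith
  · intro x hx
    have hU : Ioc 0 x ∪ Ioi x = Ioi (0 : ℝ) := Ioc_union_Ioi_eq_Ioi hx
    have hd : Disjoint (Ioc 0 x) (Ioi x) := by
      rw [Set.disjoint_left]
      intro t ht ht'
      exact absurd ht.2 (not_le.mpr ht')
    have h1 : Real.sqrt Real.pi = (∫ t in Ioc 0 x, Real.exp (-t) * t ^ (-1 / 2 : ℝ)) +
        ∫ t in Ioi x, Real.exp (-t) * t ^ (-1 / 2 : ℝ) := by
      rw [← hgI, ← hU]
      refine setIntegral_union hd measurableSet_Ioi ?_ ?_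
      · exact hgi.mono_set (fun t ht => ht.1)
      · exact hgi.mono_set (hsub x hx)
    have h0 : 0 ≤ ∫ t in Ioc 0 x, Real.exp (-t) * t ^ (-1 / 2 : ℝ) :=
      setIntegral_nonneg measurableSet_Ioc (fun t ht => by
        have : (0 : ℝ) < t := ht.1
        positivity)
    have hri : IntegrableOn (fun t : ℝ => t ^ (-1 / 2 : ℝ)) (Ioc 0 x) := by
      have h := intervalIntegral.intervalIntegrable_rpow' (a := 0) (b := x)
        (show (-1 : ℝ) < -1 / 2 by norm_num)
      rwa [intervalIntegrable_iff_integrableOn_Ioc_of_le hx] at h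
    have h2 : ∫ t in Ioc 0 x, Real.exp (-t) * t ^ (-1 / 2 : ℝ) ≤ ∫ t in Ioc 0 x, t ^ (-1 / 2 : ℝ) := by
      refine setIntegral_mono_on (hgi.mono_set (fun t ht => ht.1)) hri measurableSet_Ioc ?_
      intro t ht
      have h3 : (0 : ℝ) < t := ht.1
      have h4 : Real.exp (-t) ≤ 1 := by
        rw [Real.exp_le_one_iff]
        linarith
      have h5 : 0 ≤ t ^ (-1 / 2 : ℝ) := by positivity
      calc Real.exp (-t) * t ^ (-1 / 2 : ℝ) ≤ 1 * t ^ (-1 / 2 : ℝ) := mul_le_mul_of_nonneg_right h4 h5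
        _ = _ := one_mul _
    have h3 : ∫ t in Ioc 0 x, t ^ (-1 / 2 : ℝ) = 2 * Real.sqrt x := by
      rw [← intervalIntegral.integral_of_le hx, integral_rpow (Or.inl (by norm_num)),
        Real.zero_rpow (by norm_num), Real.sqrt_eq_rpow]
      have e2 : (-1 / 2 : ℝ) + 1 = 1 / 2 := by norm_num
      rw [e2]
      ring
    rw [h3] at h2
    have h4 : 1 - V0 x = (1 / Real.sqrt Real.pi) * ∫ t in Ioc 0 x, Real.exp (-t) * t ^ (-1 / 2 : ℝ) := by
      unfold V0
      have h5 : (∫ t in Ioc 0 x, Real.exp (-t) * t ^ (-1 / 2 : ℝ)) = Real.sqrt Real.pi -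
        ∫ t in Ioi x, Real.exp (-t) * t ^ (-1 / 2 : ℝ) := by linarith
      rw [h5, mul_sub]
      congr 1
      field_simp
    rw [h4, abs_of_nonneg (by positivity)]
    calc 1 / Real.sqrt Real.pi * ∫ t in Ioc 0 x, Real.exp (-t) * t ^ (-1 / 2 : ℝ)
        ≤ 1 / Real.sqrt Real.pi * (2 * Real.sqrt x) := mul_le_mul_of_nonneg_left h2 (by positivity)
      _ = 2 / Real.sqrt Real.pi * Real.sqrt x := by ring
      _ ≤ (K / Real.sqrt Real.pi + 2 / Real.sqrt Real.pi) * Real.sqrt x := by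
          apply mul_le_mul_of_nonneg_right _ (Real.sqrt_nonneg x)
          have : 0 ≤ K / Real.sqrt Real.pi := by positivity
          linarith

end Pool.Agent.W513.HK
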